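import Pool.Agent.Helper40.AV.Base
import Pool.Agent.Helper40.AV.St2

/-! Project AV (LS1): Selberg's upper bound for the number of rough integers in intervals. -/

set_option autoImplicit false

open Filter Topology

namespace Pool.Agent.Helper55.AV

open Pool.Agent.Helper40.AV

open Classical in
theorem rs_le (hS : SelbergP) (y l : ℕ) (z Y : ℝ) (hY : 1 ≤ Y) :
    ((RS y l z).card : ℝ) ≤ (l + 1) / GG z Y + Y ^ 2 := by
  have h := hS y l 1 z Y le_rfl hY
  have e : (Finset.Ico y (y + l)).filter (fun n => 1 ∣ n ∧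
      ∀ r : ℕ, r.Prime → r ∣ n → z < r) = RS y l z := by
    unfold RS
    refine Finset.filter_congr fun n _ => ?_
    simp
  rw [e] at h
  simpa using h

/-- the general form -/
theorem upB_of (hS : SelbergP) (hM : Mertens3) {s c : ℝ} (hs : 1 ≤ s) (hc : 0 < c)
    (h : ∀ κ : ℝ, 0 < κ → ∃ k : ℝ, 0 < k ∧ k ≤ s / 2 ∧ ∃ z₁ : ℝ, ∀ z : ℝ, z₁ ≤ z →
      (c - κ) * Real.log z ≤ GG z (z ^ (s / 2 - k))) :
    UpB s (Real.exp Real.eulerMascheroniConstant / c) := by
  intro ε hε
  set γ₀ : ℝ := Real.exp (-Real.eulerMascheroniConstant) with hγ₀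
  have hγpos : 0 < γ₀ := Real.exp_pos _
  have hmul : Real.exp Real.eulerMascheroniConstant * γ₀ = 1 := by
    rw [hγ₀, ← Real.exp_add, add_neg_cancel, Real.exp_zero]
  -- choice of kappa
  obtain ⟨κ, hκ0, hκc, hκ⟩ : ∃ κ : ℝ, 0 < κ ∧ κ < c ∧ 1 / (c - κ) < 1 / c + ε * γ₀ := by
    have h1 : Tendsto (fun κ : ℝ => 1 / (c - κ)) (𝓝 0) (𝓝 (1 / c)) := by
      have : ContinuousAt (fun κ : ℝ => 1 / (c - κ)) 0 := by
        refine ContinuousAt.div continuousAt_const (continuousAt_const.sub continuousAt_id) ?_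
        simpa using hc.ne'
      simpa [ContinuousAt] using this
    have h2 : ∀ᶠ κ : ℝ in 𝓝[>] 0, 1 / (c - κ) < 1 / c + ε * γ₀ :=
      (h1.mono_left nhdsWithin_le_nhds).eventually_lt_const (by
        have := mul_pos hε hγpos
        linarith)
    have h3 : ∀ᶠ κ : ℝ in 𝓝[>] 0, κ < c := nhdsWithin_le_nhds (Iio_mem_nhds hc)
    have h4 : ∀ᶠ κ : ℝ in 𝓝[>] 0, 0 < κ := self_mem_nhdsWithin
    obtain ⟨κ, a, b, d⟩ := (h4.and (h3.and h2)).exists
    exact ⟨κ, a, b, d⟩
  obtain ⟨k, hk0, hks, z₁, hz₁⟩ := h κ hκ0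
  have hcκ : 0 < c - κ := by linarith
  -- limits
  have t1 : Tendsto (fun z : ℝ => (1 + 1 / z) / (c - κ) + z ^ (-(2 * k)) * Real.log z) atTop
      (𝓝 (1 / (c - κ))) := by
    have a1 : Tendsto (fun z : ℝ => (1 + 1 / z) / (c - κ)) atTop (𝓝 ((1 + 0) / (c - κ))) := by
      apply Tendsto.div_const
      apply Tendsto.const_add
      exact tendsto_const_nhds.div_atTop tendsto_id
    have a2 : Tendsto (fun z : ℝ => z ^ (-(2 * k)) * Real.log z) atTop (𝓝 0) := by
      have h1 := isLittleO_log_rpow_atTop (show (0 : ℝ) < 2 * k by linarith)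
      refine h1.tendsto_div_nhds_zero.congr' ?_
      filter_upwards [eventually_gt_atTop (0 : ℝ)] with z hz
      rw [Real.rpow_neg hz.le, div_eq_mul_inv, mul_comm]
    have := a1.add a2
    simpa using this
  have t2 : Tendsto (fun z : ℝ => (Real.exp Real.eulerMascheroniConstant / c + ε) *
      (VV z * Real.log z)) atTop (𝓝 (1 / c + ε * γ₀)) := by
    have h1 := hM.const_mul (Real.exp Real.eulerMascheroniConstant / c + ε)
    have h2 : (Real.exp Real.eulerMascheroniConstant / c + ε) *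
        Real.exp (-Real.eulerMascheroniConstant) = 1 / c + ε * γ₀ := by
      rw [← hγ₀, add_mul, div_mul_eq_mul_div, hmul]
    rwa [h2] at h1
  have e1 : ∀ᶠ z : ℝ in atTop, (1 + 1 / z) / (c - κ) + z ^ (-(2 * k)) * Real.log z <
      (Real.exp Real.eulerMascheroniConstant / c + ε) * (VV z * Real.log z) :=
    t1.eventually_lt t2 hκ
  obtain ⟨z₀, hz₀⟩ := eventually_atTop.1 (e1.and ((eventually_ge_atTop z₁).and
    (eventually_gt_atTop (1 : ℝ))))
  refine ⟨z₀, fun z hz y l hl => ?_⟩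
  obtain ⟨b1, b2, b3⟩ := hz₀ z hz
  have hz0 : 0 < z := by linarith
  have hL : 0 < Real.log z := Real.log_pos b3
  have hzs : z ≤ z ^ s := by
    have := Real.rpow_le_rpow_of_exponent_le b3.le hs
    rwa [Real.rpow_one] at this
  have hl0 : (0 : ℝ) < l := by linarith
  set Y : ℝ := z ^ (s / 2 - k) with hY
  have hY1 : 1 ≤ Y := Real.one_le_rpow b3.le (by linarith)
  have hG := hz₁ z b2
  have hcL : 0 < (c - κ) * Real.log z := mul_pos hcκ hL
  have hGG : 0 < GG z Y := hcL.trans_le hG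
  have hY2 : Y ^ 2 ≤ l * z ^ (-(2 * k)) := by
    have : Y ^ 2 = z ^ s * z ^ (-(2 * k)) := by
      rw [hY, ← Real.rpow_natCast, ← Real.rpow_mul hz0.le, ← Real.rpow_add hz0]
      congr 1
      push_cast
      ring
    rw [this]
    exact mul_le_mul_of_nonneg_right hl (Real.rpow_nonneg hz0.le _)
  have hl1 : (l : ℝ) + 1 ≤ l * (1 + 1 / z) := by
    have : (1 : ℝ) ≤ l * (1 / z) := by
      rw [mul_one_div, le_div_iff₀ hz0]
      linarith
    linarith
  have h5 : ((l : ℝ) + 1) / GG z Y ≤ l * (1 + 1 / z) / ((c - κ) * Real.log z) := by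
    have h50 : (0 : ℝ) ≤ (l : ℝ) + 1 := by linarith
    calc ((l : ℝ) + 1) / GG z Y ≤ ((l : ℝ) + 1) / ((c - κ) * Real.log z) :=
          div_le_div_of_nonneg_left h50 hcL hG
      _ ≤ _ := div_le_div_of_nonneg_right hl1 hcL.le
  have h6 := rs_le hS y l z Y hY1
  have h7 : l * (1 + 1 / z) / ((c - κ) * Real.log z) + l * z ^ (-(2 * k)) =
      (l / Real.log z) * ((1 + 1 / z) / (c - κ) + z ^ (-(2 * k)) * Real.log z) := by
    field_simp
  calc ((RS y l z).card : ℝ) ≤ l * (1 + 1 / z) / ((c - κ) * Real.log z) + l * z ^ (-(2 * k)) := by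
        linarith
    _ = (l / Real.log z) * ((1 + 1 / z) / (c - κ) + z ^ (-(2 * k)) * Real.log z) := h7
    _ ≤ (l / Real.log z) * ((Real.exp Real.eulerMascheroniConstant / c + ε) *
        (VV z * Real.log z)) := mul_le_mul_of_nonneg_left b1.le (by positivity)
    _ = _ := by
      field_simp

theorem log_two_lt : Real.log 2 < 0.6932 := by
  have := Real.log_two_lt_d9
  linarith

theorem cu_pos {u : ℝ} (h1 : 1 ≤ u) (h2 : u ≤ 2) : 0 < cu u := by
  unfold cu
  have h3 : Real.log u ≤ Real.log 2 := Real.log_le_log (by linarith) h2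
  have h4 := log_two_lt
  nlinarith

theorem cu_cont {u : ℝ} (h : 0 < u) : ContinuousAt cu u := by
  unfold cu
  have : ContinuousAt Real.log u := Real.continuousAt_log h.ne'
  fun_prop

theorem selUp1 (hS : SelbergP) (hM : Mertens3) (hT : GGtriv) {s : ℝ} (h1 : 1 ≤ s) (h2 : s ≤ 2) :
    UpB s (Real.exp Real.eulerMascheroniConstant / (s / 2)) := by
  refine upB_of hS hM h1 (by linarith) fun κ hκ => ?_
  refine ⟨min κ (1 / 4), lt_min hκ (by norm_num), (min_le_right _ _).trans (by linarith), 1,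
    fun z hz => ?_⟩
  have hz0 : 0 < z := by linarith
  have hk1 : min κ (1 / 4) ≤ κ := min_le_left _ _
  have hk2 : min κ (1 / 4) ≤ 1 / 4 := min_le_right _ _
  have hk3 : 0 < min κ (1 / 4) := lt_min hκ (by norm_num)
  have h3 := hT z (z ^ (s / 2 - min κ (1 / 4))) (Real.one_le_rpow hz (by linarith)) (by
    have := Real.rpow_le_rpow_of_exponent_le hz (show s / 2 - min κ (1 / 4) ≤ 1 by linarith)
    rwa [Real.rpow_one] at this)
  rw [Real.log_rpow hz0] at h3
  refine le_trans (mul_le_mul_of_nonneg_right ?_ (Real.log_nonneg hz)) h3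
  linarith

theorem selUp (hS : SelbergP) (hM : Mertens3) (hT : GGtriv) (hG : GGlow) : SelUp := by
  refine ⟨fun s h1 h2 => ?_, fun s h1 h2 => ?_⟩
  · have := selUp1 hS hM hT h1 h2
    rwa [div_div_eq_mul_div, mul_comm] at this
  · rcases h1.eq_or_lt with h3 | h3
    · subst h3
      have := selUp1 hS hM hT (s := 2) (by norm_num) le_rfl
      have e : cu (2 / 2) = 2 / 2 := by
        unfold cu
        norm_num
      rw [e]
      exact this
    · refine upB_of hS hM (by linarith) (cu_pos (by linarith) (by linarith)) fun κ hκ => ?_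
      obtain ⟨C, hC⟩ := hG
      -- choice of k
      obtain ⟨k, hk0, hk1, hk2⟩ : ∃ k : ℝ, 0 < k ∧ 1 ≤ s / 2 - k ∧
          cu (s / 2) - κ / 2 < cu (s / 2 - k) := by
        have a1 : Tendsto (fun k : ℝ => cu (s / 2 - k)) (𝓝 0) (𝓝 (cu (s / 2))) := by
          have b1 : ContinuousAt (fun k : ℝ => cu (s / 2 - k)) 0 := by
            refine ContinuousAt.comp (g := cu) (f := fun k : ℝ => s / 2 - k) ?_
              (continuousAt_const.sub continuousAt_id)
            apply cu_cont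
            simp only [sub_zero]
            linarith
          simpa [ContinuousAt] using b1
        have a2 : ∀ᶠ k : ℝ in 𝓝[>] 0, cu (s / 2) - κ / 2 < cu (s / 2 - k) :=
          (a1.mono_left nhdsWithin_le_nhds).eventually_const_lt (by linarith)
        have a3 : ∀ᶠ k : ℝ in 𝓝[>] 0, k < s / 2 - 1 :=
          nhdsWithin_le_nhds (Iio_mem_nhds (by linarith))
        have a4 : ∀ᶠ k : ℝ in 𝓝[>] 0, 0 < k := self_mem_nhdsWithin
        obtain ⟨k, c1, c2, c3⟩ := (a4.and (a3.and a2)).exists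
        exact ⟨k, c1, by linarith, c3⟩
      have e1 : ∀ᶠ z : ℝ in atTop, C ≤ κ / 2 * Real.log z := by
        have := Real.tendsto_log_atTop.const_mul_atTop (show 0 < κ / 2 by linarith)
        exact this.eventually_ge_atTop C
      obtain ⟨z₁, hz₁⟩ := eventually_atTop.1 (e1.and (eventually_ge_atTop (2 : ℝ)))
      refine ⟨k, hk0, by linarith, z₁, fun z hz => ?_⟩
      obtain ⟨d1, d2⟩ := hz₁ z hz
      have hL : 0 ≤ Real.log z := Real.log_nonneg (by linarith)
      have h5 := hC z (s / 2 - k) d2 hk1 (by linarith)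
      have h6 : (cu (s / 2) - κ / 2) * Real.log z ≤ cu (s / 2 - k) * Real.log z :=
        mul_le_mul_of_nonneg_right hk2.le hL
      unfold cu at h6 ⊢
      linarith

end Pool.Agent.Helper55.AV
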